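import Pool.Agent.LibKlVar.KV_W

set_option autoImplicit false

namespace Pool.Agent.Results.MP_6ea630_nt.AlmostAllAngles

open Finset

/-- The Kloosterman sum `S(a,1;p)` (a real number): the sum over `1 ≤ x < p` of
`cos(2π (a x + x⁻¹) / p)`, where `x⁻¹` is the inverse modulo `p`. -/
noncomputable def S (a : ℤ) (p : ℕ) : ℝ :=
  ∑ x ∈ Finset.Ico 1 p, Real.cos (2 * Real.pi *
    ((((a : ZMod p) * (x : ZMod p) + (x : ZMod p)⁻¹).val : ℕ) : ℝ) / (p : ℝ))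

/-- The Kloosterman angle `θ_p(a) ∈ [0, π]`: `S(a,1;p) = 2 √p cos θ_p(a)`. -/
noncomputable def theta (a : ℤ) (p : ℕ) : ℝ := Real.arccos (S a p / (2 * Real.sqrt p))

theorem result (η : ℝ) (h0 : 0 < η) (h1 : η < 1) :
    ∃ δ : ℝ, 0 < δ ∧ ∃ C : ℝ, 0 < C ∧ ∀ β : ℕ → ℂ, (∀ p, ‖β p‖ ≤ 1) → ∃ E : Set ℤ,
      (∀ N : ℕ, 0 < N → ((E ∩ Set.Icc (-(N : ℤ)) N).ncard : ℝ) ≤ C * (N : ℝ) ^ (1 - δ)) ∧
      ∀ a : ℤ, a ≠ 0 → a ∉ E → ∀ x : ℕ, |(a : ℝ)| ^ η ≤ x → (x : ℝ) ≤ |(a : ℝ)| ^ (2 - η) →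
        ‖∑ p ∈ (Icc 1 x).filter (fun p : ℕ => p.Prime ∧ Nat.Coprime p a.natAbs),
          β p * ((Real.cos (theta a p) : ℝ) : ℂ)‖ ≤ C * (x : ℝ) ^ (1 - δ) := by
  have HLS : ∀ ε : ℝ, 0 < ε → ∃ C : ℝ, 0 < C ∧ Pool.KV.LSBd ε C :=
    fun ε hε => Pool.KV.large_sieve' Pool.KV.weilBd ε hε
  obtain ⟨δ, hδ, C, hC, hβE⟩ :=
    Pool.KV.almost_all_setW HLS Pool.KV.kl_im Pool.KV.kl_le' η h0 h1
  refine ⟨δ, hδ, C, hC, fun β hβ => ?_⟩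
  obtain ⟨E, hE1, hE2⟩ := hβE β hβ
  refine ⟨E, hE1, fun a ha haE x hx hx2 => ?_⟩
  have h3 := hE2 a ha haE x hx hx2
  have e1 : (Icc 1 x).filter (fun p : ℕ => p.Prime ∧ Nat.Coprime p a.natAbs) =
      (Icc 1 x).filter (fun p : ℕ => p.Prime ∧ ¬ (p : ℤ) ∣ a) := by
    apply filter_congr
    intro p _
    constructor
    · rintro ⟨hp, hc⟩
      refine ⟨hp, fun hd => ?_⟩
      exact (Nat.Prime.coprime_iff_not_dvd hp).1 hc (Int.natCast_dvd.1 hd)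
    · rintro ⟨hp, hc⟩
      refine ⟨hp, (Nat.Prime.coprime_iff_not_dvd hp).2 fun hd => hc (Int.natCast_dvd.2 hd)⟩
  rw [e1]
  refine le_trans (le_of_eq ?_) h3
  congr 1
  refine sum_congr rfl fun p hp => ?_
  have hpp := (mem_filter.1 hp).2.1
  rw [Pool.KV.kl_re a p hpp]
  congr 2
  exact Pool.KV.cos_arccos_SR a p hpp

end Pool.Agent.Results.MP_6ea630_nt.AlmostAllAngles
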