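import Pool.Agent.LibPS25.K
import Pool.Agent.LibPS25.M1

set_option autoImplicit false

namespace Pool.Agent.Results.MP_6ea630_nt.ProductSigns

open Finset Filter Topology

/-- The Kloosterman sum `S(m,n;c)`, `c ≥ 1`: the sum over `0 ≤ x < c` coprime to `c` of
`exp(2 π i (m x + n x⁻¹) / c)`, where `x⁻¹` is the inverse modulo `c`. -/
noncomputable def kloosterman (m n : ℤ) (c : ℕ) : ℂ :=
  ∑ x ∈ (range c).filter (fun x => x.Coprime c),
    Complex.exp (2 * Real.pi * Complex.I *
      ((((m : ZMod c) * (x : ZMod c) + (n : ZMod c) * (x : ZMod c)⁻¹).val : ℕ) : ℂ) / c)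

/-- `S(a,1;c)` is a nonzero real number of the sign `s` (for `s = 1` or `s = -1`). -/
def HasSign (a : ℤ) (c : ℕ) (s : ℤ) : Prop := ∃ x : ℝ, kloosterman a 1 c = x ∧ 0 < s * x

/-- `g` is a multiplicative function with values `1` and `-1`. -/
def SignMult (g : ℕ → ℤ) : Prop :=
  (∀ n, g n = 1 ∨ g n = -1) ∧ ∀ m n : ℕ, m.Coprime n → g (m * n) = g m * g n

/-- `m` is in the class of `r` modulo `q` and `m n` is odd, squarefree and coprime to `a b`. -/
def Adm (a b : ℤ) (q r n m : ℕ) : Prop :=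
  m ≡ r [MOD q] ∧ Squarefree (m * n) ∧ Odd (m * n) ∧ Int.gcd (a * b) (m * n : ℕ) = 1

lemma kloosterman_eq (a : ℤ) (c : ℕ) [NeZero c] : kloosterman a 1 c = Kloo.F a c 1 := by
  unfold kloosterman Kloo.F Kloo.K
  symm
  refine sum_bij (fun (u : (ZMod c)ˣ) _ => (u : ZMod c).val) ?_ ?_ ?_ ?_
  · intro u _
    rw [mem_filter, mem_range]
    exact ⟨ZMod.val_lt _, ZMod.val_coe_unit_coprime u⟩
  · intro u _ v _ h
    exact Units.ext (ZMod.val_injective c h)
  · intro x hx
    rw [mem_filter, mem_range] at hx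
    refine ⟨ZMod.unitOfCoprime x hx.2, mem_univ _, ?_⟩
    rw [ZMod.coe_unitOfCoprime, ZMod.val_natCast, Nat.mod_eq_of_lt hx.1]
  · intro u _
    have h1 : (((1 : ℕ) : ZMod c))⁻¹ = 1 := by
      apply Kloo.inv_eq_of_mul_eq_one; simp
    rw [h1, one_pow, mul_one]
    rw [ZMod.natCast_zmod_val, ZMod.inv_coe_unit, Int.cast_one, one_mul]
    rw [ZMod.stdAddChar_apply, ZMod.toCircle_apply]

lemma hasSign_iff (a : ℤ) (c : ℕ) (hc : Squarefree c) (s : ℤ) (hs : s = 1 ∨ s = -1) :
    HasSign a c s ↔ PS25.Th (PS25.sg a) c 1 = s := by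
  have h0 : c ≠ 0 := hc.ne_zero
  have : NeZero c := ⟨h0⟩
  have hF : SP15.Fre a c = (Kloo.F a c 1).re := by
    unfold SP15.Fre
    rw [dif_pos h0]
  have hk : kloosterman a 1 c = ((SP15.Fre a c : ℝ) : ℂ) := by
    rw [kloosterman_eq, hF]
    exact Kloo.F_real a c 1
  have hne : SP15.Fre a c ≠ 0 := by
    rw [hF]
    exact Kloo.F_re_ne_zero a c 1 hc
  rw [← PS25.A1_sign a c hc]
  constructor
  · rintro ⟨x, hx, hsx⟩
    rw [hk] at hx
    have hx' : SP15.Fre a c = x := by exact_mod_cast hx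
    rw [hx']
    rcases hs with rfl | rfl
    · rw [Real.sign_of_pos (by simpa using hsx)]; simp
    · rw [Real.sign_of_neg (by
        have : 0 < -x := by simpa using hsx
        linarith)]; simp
  · intro h
    refine ⟨SP15.Fre a c, hk, ?_⟩
    rcases hs with rfl | rfl
    · rcases lt_or_gt_of_ne hne with h1 | h1
      · rw [Real.sign_of_neg h1] at h
        norm_num at h
      · simpa using h1
    · rcases lt_or_gt_of_ne hne with h1 | h1
      · have : 0 < -SP15.Fre a c := by linarith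
        simpa using this
      · rw [Real.sign_of_pos h1] at h
        norm_num at h

lemma th_pm (a : ℤ) (c : ℕ) (hc : Squarefree c) :
    PS25.Th (PS25.sg a) c 1 = 1 ∨ PS25.Th (PS25.sg a) c 1 = -1 := by
  rw [← PS25.A1_sign a c hc]
  have hne : SP15.Fre a c ≠ 0 := by
    have h0 : c ≠ 0 := hc.ne_zero
    have : NeZero c := ⟨h0⟩
    unfold SP15.Fre
    rw [dif_pos h0]
    exact Kloo.F_re_ne_zero a c 1 hc
  rcases lt_or_gt_of_ne hne with h | h
  · right; exact Real.sign_of_neg h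
  · left; exact Real.sign_of_pos h

lemma adm_iff (a b : ℤ) (q r n m : ℕ) (hr : r.Coprime q) (h1 : Odd n) (h2 : Int.gcd (a * b) n = 1) :
    Adm a b q r n m ↔
      ((Squarefree (m * n) ∧ m.Coprime (2 * (a * b).natAbs * q)) ∧ m ≡ r [MOD q]) := by
  unfold Adm
  constructor
  · rintro ⟨h2, h3, h4, h5⟩
    refine ⟨⟨h3, ?_⟩, h2⟩
    have e1 : m.Coprime 2 := (Nat.coprime_two_right).2 (Nat.odd_mul.1 h4).1
    have e2 : m.Coprime (a * b).natAbs := by
      rw [Int.gcd_eq_natAbs, Int.natAbs_natCast] at h5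
      exact (Nat.Coprime.coprime_mul_right_right (h5 : (a * b).natAbs.Coprime (m * n))).symm
    have e3 : m.Coprime q := by
      have := h2.gcd_eq
      rw [Nat.coprime_iff_gcd_eq_one, this]
      exact hr
    exact Nat.Coprime.mul_right (Nat.Coprime.mul_right e1 e2) e3
  · rintro ⟨⟨h3, h4⟩, h6⟩
    have e1 : m.Coprime 2 := Nat.Coprime.coprime_mul_right_right (Nat.Coprime.coprime_mul_right_right h4)
    have e2 : m.Coprime (a * b).natAbs :=
      Nat.Coprime.coprime_mul_left_right (Nat.Coprime.coprime_mul_right_right h4)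
    refine ⟨h6, h3, Nat.odd_mul.2 ⟨Nat.coprime_two_right.1 e1, h1⟩, ?_⟩
    rw [Int.gcd_eq_natAbs, Int.natAbs_natCast]
    have e4 : (a * b).natAbs.Coprime n := by
      rw [Int.gcd_eq_natAbs, Int.natAbs_natCast] at h2
      exact h2
    exact Nat.Coprime.mul_right e2.symm e4

lemma not_adm (a b : ℤ) (q r n m : ℕ) (h : ¬ (Odd n ∧ Int.gcd (a * b) n = 1)) : ¬ Adm a b q r n m := by
  rintro ⟨_, _, h4, h5⟩
  apply h
  refine ⟨(Nat.odd_mul.1 h4).2, ?_⟩
  rw [Int.gcd_eq_natAbs, Int.natAbs_natCast] at h5 ⊢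
  exact Nat.Coprime.coprime_mul_left_right (h5 : (a * b).natAbs.Coprime (m * n))

open Classical in
lemma pattern (α β σ τ : ℝ) (hα : α = 1 ∨ α = -1) (hβ : β = 1 ∨ β = -1) (hσ : σ = 1 ∨ σ = -1)
    (hτ : τ = 1 ∨ τ = -1) :
    (if α = σ ∧ β = τ then (1 : ℝ) else 0) - 1 / 4 = (σ * α + τ * β + σ * τ * (α * β)) / 4 := by
  have h1 : ¬ ((1 : ℝ) = -1) := by norm_num
  have h2 : ¬ ((-1 : ℝ) = 1) := by norm_num
  rcases hα with rfl | rfl <;> rcases hβ with rfl | rfl <;> rcases hσ with rfl | rfl <;>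
    rcases hτ with rfl | rfl <;> simp only [h1, h2, and_self, and_true, and_false,
      if_true, if_false] <;> norm_num

open Classical in
/-- the statement in the mean over `n` -/
theorem mean_form (a b : ℤ) (ha : a ≠ 0) (hb : b ≠ 0) (hab : a ≠ b) (q r : ℕ) (hq : 0 < q)
    (hr : r.Coprime q) (ε : ℝ) (hε : 0 < ε) :
    ∀ᶠ X : ℕ in atTop, ∀ g h : ℕ → ℤ, SignMult g → SignMult h →
      ∀ s t : ℤ, (s = 1 ∨ s = -1) → (t = 1 ∨ t = -1) →
        ∑ n ∈ Icc 1 X, |(#((Icc 1 X).filter fun m : ℕ => Adm a b q r n m ∧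
            HasSign a (m * n) (s * g (m * n)) ∧ HasSign b (m * n) (t * h (m * n))) : ℝ) -
          (#((Icc 1 X).filter fun m : ℕ => Adm a b q r n m) : ℝ) / 4| ≤ ε * (X : ℝ) ^ 2 := by
  have hN : 0 < 2 * (a * b).natAbs * q := by
    have := Int.natAbs_pos.2 (mul_ne_zero ha hb)
    positivity
  obtain ⟨X0, hX0⟩ := PS25.K_main a b ha hb hab (2 * (a * b).natAbs * q) hN ε hε
  have : NeZero (2 * (a * b).natAbs * q) := ⟨hN.ne'⟩
  filter_upwards [eventually_ge_atTop X0] with X hX g h hg hh s t hs ht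
  have hSM : ∀ f : ℕ → ℤ, SignMult f → PS25.SM (fun n => (f n : ℝ)) := fun f hf => ⟨fun n => by
      rcases hf.1 n with h | h <;> simp [h], fun m n hmn => by
      simp [hf.2 m n hmn]⟩
  have hgh : SignMult (fun n => g n * h n) := ⟨fun n => by
      rcases hg.1 n with h1 | h1 <;> rcases hh.1 n with h2 | h2 <;> simp [h1, h2], fun m n hmn => by
      simp only [hg.2 m n hmn, hh.2 m n hmn]; ring⟩
  set w : ZMod (2 * (a * b).natAbs * q) → ℝ := fun x => if x.val ≡ r [MOD q] then 1 else 0 with hw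
  have hwt : PS25.Wt (2 * (a * b).natAbs * q) w := fun x => by
    show |(if x.val ≡ r [MOD q] then (1 : ℝ) else 0)| ≤ 1
    split_ifs <;> simp
  have HA := (hX0 X hX (fun n => (g n : ℝ)) w (hSM g hg) hwt).1
  have HB := (hX0 X hX (fun n => (h n : ℝ)) w (hSM h hh) hwt).2.1
  have HC := (hX0 X hX (fun n => ((g n * h n : ℤ) : ℝ)) w (hSM _ hgh) hwt).2.2
  set A : ℕ → ℝ := fun n => ∑ m ∈ (Icc 1 X).filter fun m => Squarefree (m * n) ∧
    m.Coprime (2 * (a * b).natAbs * q), (g m : ℝ) * w (m : ZMod _) * PS25.Th (PS25.sg a) (m * n) 1 with hA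
  set B : ℕ → ℝ := fun n => ∑ m ∈ (Icc 1 X).filter fun m => Squarefree (m * n) ∧
    m.Coprime (2 * (a * b).natAbs * q), (h m : ℝ) * w (m : ZMod _) * PS25.Th (PS25.sg b) (m * n) 1 with hB
  set C : ℕ → ℝ := fun n => ∑ m ∈ (Icc 1 X).filter fun m => Squarefree (m * n) ∧
    m.Coprime (2 * (a * b).natAbs * q), ((g m * h m : ℤ) : ℝ) * w (m : ZMod _) *
      (PS25.Th (PS25.sg a) (m * n) 1 * PS25.Th (PS25.sg b) (m * n) 1) with hC
  have hbound : ∀ n ∈ Icc 1 X, |(#((Icc 1 X).filter fun m : ℕ => Adm a b q r n m ∧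
            HasSign a (m * n) (s * g (m * n)) ∧ HasSign b (m * n) (t * h (m * n))) : ℝ) -
          (#((Icc 1 X).filter fun m : ℕ => Adm a b q r n m) : ℝ) / 4| ≤
      (|A n| + |B n| + |C n|) / 4 := by
    intro n hn
    by_cases hadm : Odd n ∧ Int.gcd (a * b) n = 1
    · have hpt : ∀ m ∈ Icc 1 X,
          ((if Adm a b q r n m ∧ HasSign a (m * n) (s * g (m * n)) ∧
            HasSign b (m * n) (t * h (m * n)) then (1 : ℝ) else 0) -
            (if Adm a b q r n m then (1 : ℝ) else 0) / 4) =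
          if Squarefree (m * n) ∧ m.Coprime (2 * (a * b).natAbs * q) then
            (s * g n / 4) * ((g m : ℝ) * w (m : ZMod _) * PS25.Th (PS25.sg a) (m * n) 1) +
            (t * h n / 4) * ((h m : ℝ) * w (m : ZMod _) * PS25.Th (PS25.sg b) (m * n) 1) +
            (s * t * g n * h n / 4) * (((g m * h m : ℤ) : ℝ) * w (m : ZMod _) *
              (PS25.Th (PS25.sg a) (m * n) 1 * PS25.Th (PS25.sg b) (m * n) 1)) else 0 := by
        intro m hm
        have hval : ((m : ZMod (2 * (a * b).natAbs * q))).val ≡ r [MOD q] ↔ m ≡ r [MOD q] := by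
          rw [ZMod.val_natCast]
          have : m % (2 * (a * b).natAbs * q) ≡ m [MOD q] :=
            (Nat.mod_modEq m _).of_mul_left _
          exact ⟨fun h => this.symm.trans h, fun h => this.trans h⟩
        by_cases hS : Squarefree (m * n) ∧ m.Coprime (2 * (a * b).natAbs * q)
        · rw [if_pos hS]
          by_cases hR : m ≡ r [MOD q]
          · have h2 : Adm a b q r n m := (adm_iff a b q r n m hr hadm.1 hadm.2).2 ⟨hS, hR⟩
            have hw1 : w (m : ZMod (2 * (a * b).natAbs * q)) = 1 := by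
              show (if ((m : ZMod (2 * (a * b).natAbs * q))).val ≡ r [MOD q] then (1 : ℝ) else 0) = 1
              rw [if_pos (hval.2 hR)]
            have hcop : m.Coprime n := Nat.coprime_of_squarefree_mul hS.1
            have hgm : g (m * n) = g m * g n := hg.2 m n hcop
            have hhm : h (m * n) = h m * h n := hh.2 m n hcop
            have e1 := hasSign_iff a (m * n) hS.1 (s * g (m * n)) (by
              rcases hs with h1 | h1 <;> rcases hg.1 (m * n) with h3 | h3 <;> rw [h1, h3] <;> norm_num)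
            have e2 := hasSign_iff b (m * n) hS.1 (t * h (m * n)) (by
              rcases ht with h1 | h1 <;> rcases hh.1 (m * n) with h3 | h3 <;> rw [h1, h3] <;> norm_num)
            have c1 : ((s * g (m * n) : ℤ) : ℝ) = 1 ∨ ((s * g (m * n) : ℤ) : ℝ) = -1 := by
              rcases hs with h1 | h1 <;> rcases hg.1 (m * n) with h3 | h3 <;> rw [h1, h3] <;> norm_num
            have c2 : ((t * h (m * n) : ℤ) : ℝ) = 1 ∨ ((t * h (m * n) : ℤ) : ℝ) = -1 := by
              rcases ht with h1 | h1 <;> rcases hh.1 (m * n) with h3 | h3 <;> rw [h1, h3] <;> norm_num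
            simp only [h2, true_and, e1, e2, if_true, hw1]
            rw [pattern _ _ _ _ (th_pm a (m * n) hS.1) (th_pm b (m * n) hS.1) c1 c2, hgm, hhm]
            push_cast
            ring
          · have h2 : ¬ Adm a b q r n m := fun h => hR h.1
            have hw0 : w (m : ZMod (2 * (a * b).natAbs * q)) = 0 := by
              show (if ((m : ZMod (2 * (a * b).natAbs * q))).val ≡ r [MOD q] then (1 : ℝ) else 0) = 0
              rw [if_neg (fun h => hR (hval.1 h))]
            simp only [h2, false_and, if_false, hw0]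
            simp
        · rw [if_neg hS]
          have h2 : ¬ Adm a b q r n m := fun h => hS ((adm_iff a b q r n m hr hadm.1 hadm.2).1 h).1
          simp only [h2, false_and, if_false]
          simp
      have hsum : (#((Icc 1 X).filter fun m : ℕ => Adm a b q r n m ∧
            HasSign a (m * n) (s * g (m * n)) ∧ HasSign b (m * n) (t * h (m * n))) : ℝ) -
          (#((Icc 1 X).filter fun m : ℕ => Adm a b q r n m) : ℝ) / 4 =
          (s * g n / 4) * A n + (t * h n / 4) * B n + (s * t * g n * h n / 4) * C n := by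
        rw [card_filter, card_filter, Nat.cast_sum, Nat.cast_sum, Finset.sum_div, ← sum_sub_distrib]
        have e3 : ∀ m ∈ Icc 1 X, ((((if Adm a b q r n m ∧ HasSign a (m * n) (s * g (m * n)) ∧
            HasSign b (m * n) (t * h (m * n)) then (1 : ℕ) else 0) : ℕ) : ℝ) -
            (((if Adm a b q r n m then (1 : ℕ) else 0) : ℕ) : ℝ) / 4) =
            ((if Adm a b q r n m ∧ HasSign a (m * n) (s * g (m * n)) ∧
            HasSign b (m * n) (t * h (m * n)) then (1 : ℝ) else 0) -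
            (if Adm a b q r n m then (1 : ℝ) else 0) / 4) := by
          intro m _
          push_cast
          rfl
        rw [sum_congr rfl e3, sum_congr rfl hpt, ← sum_filter, sum_add_distrib, sum_add_distrib,
          ← mul_sum, ← mul_sum, ← mul_sum]
      rw [hsum]
      have u1 : |((s : ℝ) * g n / 4)| = 1 / 4 := by
        rcases hs with rfl | rfl <;> rcases hg.1 n with h6 | h6 <;> rw [h6] <;> norm_num
      have u2 : |((t : ℝ) * h n / 4)| = 1 / 4 := by
        rcases ht with rfl | rfl <;> rcases hh.1 n with h6 | h6 <;> rw [h6] <;> norm_num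
      have u3 : |((s : ℝ) * t * g n * h n / 4)| = 1 / 4 := by
        rcases hs with rfl | rfl <;> rcases ht with rfl | rfl <;>
          rcases hg.1 n with h6 | h6 <;> rcases hh.1 n with h7 | h7 <;> rw [h6, h7] <;> norm_num
      calc _ ≤ |(s : ℝ) * g n / 4 * A n + t * h n / 4 * B n| + |(s : ℝ) * t * g n * h n / 4 * C n| :=
            abs_add_le _ _
        _ ≤ |(s : ℝ) * g n / 4 * A n| + |(t : ℝ) * h n / 4 * B n| + |(s : ℝ) * t * g n * h n / 4 * C n| := by
            gcongr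
            exact abs_add_le _ _
        _ = _ := by
            rw [abs_mul, abs_mul, abs_mul, u1, u2, u3]
            ring
    · have h2 : ∀ m, ¬ Adm a b q r n m := fun m => not_adm a b q r n m hadm
      have h3 : (Icc 1 X).filter (fun m : ℕ => Adm a b q r n m ∧
            HasSign a (m * n) (s * g (m * n)) ∧ HasSign b (m * n) (t * h (m * n))) = ∅ := by
        rw [filter_eq_empty_iff]
        rintro m _ ⟨h4, _⟩
        exact h2 m h4
      have h4 : (Icc 1 X).filter (fun m : ℕ => Adm a b q r n m) = ∅ := by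
        rw [filter_eq_empty_iff]
        intro m _ h5
        exact h2 m h5
      rw [h3, h4]
      simp only [card_empty, Nat.cast_zero, zero_div, sub_zero, abs_zero]
      positivity
  calc _ ≤ ∑ n ∈ Icc 1 X, (|A n| + |B n| + |C n|) / 4 := sum_le_sum hbound
    _ = (∑ n ∈ Icc 1 X, |A n| + ∑ n ∈ Icc 1 X, |B n| + ∑ n ∈ Icc 1 X, |C n|) / 4 := by
        rw [← Finset.sum_div, sum_add_distrib, sum_add_distrib]
    _ ≤ (ε * (X : ℝ) ^ 2 + ε * (X : ℝ) ^ 2 + ε * (X : ℝ) ^ 2) / 4 := by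
        gcongr
    _ ≤ ε * (X : ℝ) ^ 2 := by
        have : 0 ≤ ε * (X : ℝ) ^ 2 := by positivity
        linarith

open Classical in
/-- **The signs of `S(a,1;mn)` and `S(b,1;mn)` are asymptotically unbiased and independent.** For all but at
most `ε X` of the admissible `n ≤ X`, each of the four patterns of signs (relative to `g`, `h`) occurs for a
proportion between `1/4 - ε` and `1/4 + ε` of the admissible `m ≤ X`. -/
theorem result (a b : ℤ) (ha : a ≠ 0) (hb : b ≠ 0) (hab : a ≠ b) (q r : ℕ) (hq : 0 < q)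
    (hr : r.Coprime q) (ε : ℝ) (hε : 0 < ε) :
    ∀ᶠ X : ℕ in atTop, ∀ g h : ℕ → ℤ, SignMult g → SignMult h →
      ∀ s t : ℤ, (s = 1 ∨ s = -1) → (t = 1 ∨ t = -1) →
        (#((Icc 1 X).filter fun n : ℕ => (Squarefree n ∧ Odd n ∧ Int.gcd (a * b) n = 1) ∧
          ε * #((Icc 1 X).filter fun m : ℕ => Adm a b q r n m) <
          |(#((Icc 1 X).filter fun m : ℕ => Adm a b q r n m ∧
            HasSign a (m * n) (s * g (m * n)) ∧ HasSign b (m * n) (t * h (m * n))) : ℝ) -
          (#((Icc 1 X).filter fun m : ℕ => Adm a b q r n m) : ℝ) / 4|) : ℝ) ≤ ε * X := by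
  obtain ⟨δ, hδ, X1, hX1⟩ := PS25.M1_many a b ha hb q r hq hr (ε / 2) (by positivity)
  have hM := mean_form a b ha hb hab q r hq hr (ε * (ε * δ) / 2) (by positivity)
  filter_upwards [hM, eventually_ge_atTop X1, eventually_ge_atTop 1] with X hX hXX1 hXpos g h hg hh s t hs ht
  have hL1 := hX g h hg hh s t hs ht
  have hfew := hX1 X hXX1
  set Nn : ℕ → ℝ := fun n => (#((Icc 1 X).filter fun m : ℕ => Adm a b q r n m) : ℝ) with hNn
  set Dn : ℕ → ℝ := fun n => |(#((Icc 1 X).filter fun m : ℕ => Adm a b q r n m ∧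
            HasSign a (m * n) (s * g (m * n)) ∧ HasSign b (m * n) (t * h (m * n))) : ℝ) -
          (#((Icc 1 X).filter fun m : ℕ => Adm a b q r n m) : ℝ) / 4| with hDn
  set S1 := (Icc 1 X).filter fun n : ℕ => (Squarefree n ∧ Odd n ∧ Int.gcd (a * b) n = 1) ∧ Nn n < δ * X
    with hS1
  set S2 := (Icc 1 X).filter fun n : ℕ => ε * (δ * X) < Dn n with hS2
  have hXr : (0 : ℝ) < X := by exact_mod_cast hXpos
  have hsub : ((Icc 1 X).filter fun n : ℕ => (Squarefree n ∧ Odd n ∧ Int.gcd (a * b) n = 1) ∧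
      ε * Nn n < Dn n) ⊆ S1 ∪ S2 := by
    intro n hn
    rw [mem_filter] at hn
    rw [mem_union, hS1, hS2, mem_filter, mem_filter]
    by_cases h1 : Nn n < δ * X
    · exact Or.inl ⟨hn.1, hn.2.1, h1⟩
    · right
      refine ⟨hn.1, lt_of_le_of_lt ?_ hn.2.2⟩
      exact mul_le_mul_of_nonneg_left (not_lt.1 h1) hε.le
  have c1 : (#S1 : ℝ) ≤ ε / 2 * X := by
    have h1 := hfew
    have e1 : S1 = (Icc 1 X).filter (fun n : ℕ => (Squarefree n ∧ Odd n ∧ Int.gcd (a * b) n = 1) ∧
        (#((Icc 1 X).filter fun m : ℕ => m ≡ r [MOD q] ∧ Squarefree (m * n) ∧ Odd (m * n) ∧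
          Int.gcd (a * b) (m * n : ℕ) = 1) : ℝ) < δ * X) := by
      rw [hS1]
      refine filter_congr fun n _ => ?_
      refine and_congr_right fun _ => ?_
      have e2 : Nn n = (#((Icc 1 X).filter fun m : ℕ => m ≡ r [MOD q] ∧ Squarefree (m * n) ∧ Odd (m * n) ∧
          Int.gcd (a * b) (m * n : ℕ) = 1) : ℝ) := by
        show (#((Icc 1 X).filter fun m : ℕ => Adm a b q r n m) : ℝ) = _
        have e3 : ((Icc 1 X).filter fun m : ℕ => Adm a b q r n m) = (Icc 1 X).filter fun m : ℕ =>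
            m ≡ r [MOD q] ∧ Squarefree (m * n) ∧ Odd (m * n) ∧ Int.gcd (a * b) (m * n : ℕ) = 1 := by
          ext m
          rw [mem_filter, mem_filter]
          exact Iff.rfl
        rw [e3]
      rw [e2]
    rw [e1]
    convert h1
  have c2 : (#S2 : ℝ) * (ε * (δ * X)) ≤ ε * (ε * δ) / 2 * (X : ℝ) ^ 2 := by
    calc (#S2 : ℝ) * (ε * (δ * X)) = ∑ n ∈ S2, ε * (δ * X) := by rw [sum_const, nsmul_eq_mul]
      _ ≤ ∑ n ∈ S2, Dn n := sum_le_sum fun n hn => (mem_filter.1 hn).2.le
      _ ≤ ∑ n ∈ Icc 1 X, Dn n := sum_le_sum_of_subset_of_nonneg (filter_subset _ _)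
          (fun n _ _ => abs_nonneg _)
      _ ≤ _ := hL1
  have c3 : (#S2 : ℝ) ≤ ε / 2 * X := by
    have h1 : (#S2 : ℝ) * (ε * (δ * X)) ≤ (ε / 2 * X) * (ε * (δ * X)) := by
      calc _ ≤ ε * (ε * δ) / 2 * (X : ℝ) ^ 2 := c2
        _ = _ := by ring
    exact le_of_mul_le_mul_right h1 (by positivity)
  calc _ ≤ (#(S1 ∪ S2) : ℝ) := by exact_mod_cast card_le_card hsub
    _ ≤ #S1 + #S2 := by exact_mod_cast card_union_le _ _
    _ ≤ ε / 2 * X + ε / 2 * X := add_le_add c1 c3
    _ = ε * X := by ring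

end Pool.Agent.Results.MP_6ea630_nt.ProductSigns
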