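import Pool.Agent.LibKC40.H6b
import Pool.Agent.LibKC40.H7

set_option autoImplicit false

namespace Pool.Agent.Results.MP_6ea630_nt.SignChanges

open Finset Filter Topology

/-- The Kloosterman sum `S(m,n;c)`, `c ≥ 1`: the sum over `0 ≤ x < c` coprime to `c` of
`exp(2 π i (m x + n x⁻¹) / c)`, where `x⁻¹` is the inverse modulo `c`. -/
noncomputable def kloosterman (m n : ℤ) (c : ℕ) : ℂ :=
  ∑ x ∈ (range c).filter (fun x => x.Coprime c),
    Complex.exp (2 * Real.pi * Complex.I *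
      ((((m : ZMod c) * (x : ZMod c) + (n : ZMod c) * (x : ZMod c)⁻¹).val : ℕ) : ℂ) / c)

/-- `S(m,n;c)` is a positive real number. -/
def Pos (m n : ℤ) (c : ℕ) : Prop := ∃ r : ℝ, 0 < r ∧ kloosterman m n c = r

/-- `S(m,n;c)` is a negative real number. -/
def Neg (m n : ℤ) (c : ℕ) : Prop := ∃ r : ℝ, r < 0 ∧ kloosterman m n c = r

/-- `c` is odd, squarefree and prime to `a`, and `c = d p p'` with primes `p`, `p'` that satisfy
`c ≤ p² (log c)^C` and `c ≤ p'² (log c)^C`, and `d = 1` or `d` is a prime `≤ (log c)^C`. -/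
def Few (a : ℤ) (C c : ℕ) : Prop :=
  c % 2 = 1 ∧ Squarefree c ∧ Int.gcd a c = 1 ∧ ∃ d p p' : ℕ, c = d * (p * p') ∧
    (d = 1 ∨ d.Prime) ∧ p.Prime ∧ p'.Prime ∧ (d : ℝ) ≤ Real.log c ^ C ∧
    (c : ℝ) ≤ (p : ℝ) ^ 2 * Real.log c ^ C ∧ (c : ℝ) ≤ (p' : ℝ) ^ 2 * Real.log c ^ C

lemma kloosterman_eq (a : ℤ) (c : ℕ) [NeZero c] : kloosterman a 1 c = Kloo.F a c 1 := by
  unfold kloosterman Kloo.F Kloo.K
  symm
  refine sum_bij (fun (u : (ZMod c)ˣ) _ => (u : ZMod c).val) ?_ ?_ ?_ ?_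
  · intro u _
    rw [mem_filter, mem_range]
    exact ⟨ZMod.val_lt _, ZMod.val_coe_unit_coprime u⟩
  · intro u _ v _ h
    exact Units.ext (ZMod.val_injective c h)
  · intro x hx
    rw [mem_filter, mem_range] at hx
    refine ⟨ZMod.unitOfCoprime x hx.2, mem_univ _, ?_⟩
    rw [ZMod.coe_unitOfCoprime, ZMod.val_natCast, Nat.mod_eq_of_lt hx.1]
  · intro u _
    have h1 : (((1 : ℕ) : ZMod c))⁻¹ = 1 := by
      apply Kloo.inv_eq_of_mul_eq_one; simp
    rw [h1, one_pow, mul_one]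
    rw [ZMod.natCast_zmod_val, ZMod.inv_coe_unit, Int.cast_one, one_mul]
    rw [ZMod.stdAddChar_apply, ZMod.toCircle_apply]

lemma pos_of_re (a : ℤ) (c : ℕ) [NeZero c] (h : 0 < (Kloo.F a c 1).re) : Pos a 1 c :=
  ⟨_, h, by rw [kloosterman_eq, Kloo.F_real]; simp⟩

lemma neg_of_re (a : ℤ) (c : ℕ) [NeZero c] (h : (Kloo.F a c 1).re < 0) : Neg a 1 c :=
  ⟨_, h, by rw [kloosterman_eq, Kloo.F_real]; simp⟩

lemma few_of_okc {a : ℤ} {B c : ℕ} (h : LibKC40.Okc a B c) : Few a (B + 5) c := by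
  obtain ⟨h1, h2, h3, d, p, p', hc, hd, hp, hp', h4, h5, h6⟩ := h
  have hd1 : 1 ≤ d := by rcases hd with h | h; exacts [h.ge, h.one_lt.le]
  have hc4 : 4 ≤ c := by
    have := hp.two_le; have := hp'.two_le
    calc 4 = 1 * (2 * 2) := by norm_num
      _ ≤ d * (p * p') := by gcongr
      _ = c := hc.symm
  have hlog : 1 ≤ Real.log c := by
    have h8 : (4 : ℝ) ≤ c := by exact_mod_cast hc4
    rw [Real.le_log_iff_exp_le (by linarith)]
    linarith [Real.exp_one_lt_d9]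
  have hpow : Real.log c ^ B ≤ Real.log c ^ (B + 5) := pow_le_pow_right₀ hlog (by omega)
  exact ⟨h1, h2, h3, d, p, p', hc, hd, hp, hp', h4.trans hpow,
    h5.trans (mul_le_mul_of_nonneg_left hpow (by positivity)),
    h6.trans (mul_le_mul_of_nonneg_left hpow (by positivity))⟩

/-- There is an absolute constant `C` such that for every integer `a ≠ 0` and all large `X` at least `X / (log X)^C` of the `c ≤ X`
satisfy `Few a C c` and `S(a,1;c) > 0`, and at least `X / (log X)^C` of them satisfy `Few a C c` and `S(a,1;c) < 0`. -/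
theorem result : ∃ C : ℕ, ∀ a : ℤ, a ≠ 0 → ∀ᶠ X : ℝ in atTop,
    X / Real.log X ^ C ≤ (({c : ℕ | (c : ℝ) ≤ X ∧ (Few a C c ∧ Pos a 1 c)} : Set ℕ).ncard : ℝ) ∧
    X / Real.log X ^ C ≤ (({c : ℕ | (c : ℝ) ≤ X ∧ (Few a C c ∧ Neg a 1 c)} : Set ℕ).ncard : ℝ) := by
  obtain ⟨B, c₁, hc₁, h⟩ := LibKC40.both_scale
  refine ⟨B + 5, fun a ha => ?_⟩
  have hP := LibKC40.to_real (fun c => Few a (B + 5) c ∧ Pos a 1 c) B c₁ hc₁ (by
    filter_upwards [h a ha] with n hn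
    obtain ⟨S, S', -, hS', -, hn'⟩ := hn
    refine ⟨S', fun c hc => ?_, hn'⟩
    obtain ⟨g1, g2, g3, g4⟩ := hS' c hc
    have : NeZero c := ⟨g1.ne'⟩
    exact ⟨g2, few_of_okc g3, pos_of_re a c (g4 this)⟩)
  have hN := LibKC40.to_real (fun c => Few a (B + 5) c ∧ Neg a 1 c) B c₁ hc₁ (by
    filter_upwards [h a ha] with n hn
    obtain ⟨S, S', hS, -, hn', -⟩ := hn
    refine ⟨S, fun c hc => ?_, hn'⟩
    obtain ⟨g1, g2, g3, g4⟩ := hS c hc
    have : NeZero c := ⟨g1.ne'⟩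
    exact ⟨g2, few_of_okc g3, neg_of_re a c (g4 this)⟩)
  filter_upwards [hP, hN] with X h3 h4
  exact ⟨h3, h4⟩

end Pool.Agent.Results.MP_6ea630_nt.SignChanges
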