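import Pool.Agent.LibKl96.Main

/-!
MP_6ea630_nt.  Both signs of the Kloosterman sums `S(b,1;c)`, `c` with at most two prime factors, for
one of `b = a`, `4a`, `16a`.
-/

set_option autoImplicit false

namespace Pool.Agent.Results.MP_6ea630_nt.TwoPrimeFactors

open Finset Filter Topology

/-- The Kloosterman sum `S(m,n;c)`, `c ≥ 1`: the sum over `0 ≤ x < c` coprime to `c` of
`exp(2 π i (m x + n x⁻¹) / c)`, where `x⁻¹` is the inverse modulo `c`. -/
noncomputable def kloosterman (m n : ℤ) (c : ℕ) : ℂ :=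
  ∑ x ∈ (range c).filter (fun x => x.Coprime c),
    Complex.exp (2 * Real.pi * Complex.I *
      ((((m : ZMod c) * (x : ZMod c) + (n : ZMod c) * (x : ZMod c)⁻¹).val : ℕ) : ℂ) / c)

/-- `S(m,n;c)` is a positive real number. -/
def Pos (m n : ℤ) (c : ℕ) : Prop := ∃ r : ℝ, 0 < r ∧ kloosterman m n c = r

/-- `S(m,n;c)` is a negative real number. -/
def Neg (m n : ℤ) (c : ℕ) : Prop := ∃ r : ℝ, r < 0 ∧ kloosterman m n c = r

/-- `c` is squarefree with at most two prime factors, `gcd(b,c)` divides `2`, and every prime factor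
`r` of `c` is `2` or satisfies `c ≤ 64 r^2`. -/
def Good (b : ℤ) (c : ℕ) : Prop := Squarefree c ∧ #c.primeFactors ≤ 2 ∧ Int.gcd b c ∣ 2 ∧
  ∀ r : ℕ, r.Prime → r ∣ c → r = 2 ∨ c ≤ 64 * r ^ 2

lemma kloosterman_eq (a : ℤ) (c : ℕ) [NeZero c] : kloosterman a 1 c = Kloo.F a c 1 := by
  unfold kloosterman Kloo.F Kloo.K
  symm
  refine sum_bij (fun (u : (ZMod c)ˣ) _ => (u : ZMod c).val) ?_ ?_ ?_ ?_
  · intro u _
    rw [mem_filter, mem_range]
    exact ⟨ZMod.val_lt _, ZMod.val_coe_unit_coprime u⟩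
  · intro u _ v _ h
    exact Units.ext (ZMod.val_injective c h)
  · intro x hx
    rw [mem_filter, mem_range] at hx
    refine ⟨ZMod.unitOfCoprime x hx.2, mem_univ _, ?_⟩
    rw [ZMod.coe_unitOfCoprime, ZMod.val_natCast, Nat.mod_eq_of_lt hx.1]
  · intro u _
    have h1 : (((1 : ℕ) : ZMod c))⁻¹ = 1 := by
      apply Kloo.inv_eq_of_mul_eq_one; simp
    rw [h1, one_pow, mul_one]
    rw [ZMod.natCast_zmod_val, ZMod.inv_coe_unit, Int.cast_one, one_mul]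
    rw [ZMod.stdAddChar_apply, ZMod.toCircle_apply]

lemma pos_of (b : ℤ) (c : ℕ) (h : Kl96.PosF b c) : Pos b 1 c := by
  obtain ⟨i, h⟩ := h
  exact ⟨_, h, by rw [kloosterman_eq, Kloo.F_real]; simp⟩

lemma neg_of (b : ℤ) (c : ℕ) (h : Kl96.NegF b c) : Neg b 1 c := by
  obtain ⟨i, h⟩ := h
  exact ⟨_, h, by rw [kloosterman_eq, Kloo.F_real]; simp⟩

lemma finite_le (X : ℝ) (P : ℕ → Prop) : ({c : ℕ | (c : ℝ) ≤ X ∧ P c} : Set ℕ).Finite := by
  apply (Set.finite_Iic ⌊X⌋₊).subset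
  rintro c ⟨hc, _⟩
  exact Nat.le_floor hc

/-- There are at least `δ X / (log X)^3` good `c ≤ X` with `S(b,1;c) > 0`, and at least as many with
`S(b,1;c) < 0`. -/
def Both (δ : ℝ) (b : ℤ) (X : ℝ) : Prop :=
  δ * X / Real.log X ^ 3 ≤
      (({c : ℕ | (c : ℝ) ≤ X ∧ (Good b c ∧ Pos b 1 c)} : Set ℕ).ncard : ℝ) ∧
    δ * X / Real.log X ^ 3 ≤
      (({c : ℕ | (c : ℝ) ≤ X ∧ (Good b c ∧ Neg b 1 c)} : Set ℕ).ncard : ℝ)

lemma infinite_of_frequently (δ : ℝ) (hδ : 0 < δ) (P : ℕ → Prop)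
    (h : ∃ᶠ X : ℝ in atTop,
      δ * X / Real.log X ^ 3 ≤ (({c : ℕ | (c : ℝ) ≤ X ∧ P c} : Set ℕ).ncard : ℝ)) :
    {c : ℕ | P c}.Infinite := by
  intro hfin
  set K := ({c : ℕ | P c} : Set ℕ).ncard with hK
  have hlit := (Real.isLittleO_pow_log_id_atTop (n := 3)).bound
    (show (0 : ℝ) < δ / (K + 1) by positivity)
  obtain ⟨X, hX1, hX2, hX3⟩ := (h.and_eventually (hlit.and (eventually_gt_atTop (1 : ℝ)))).exists
  have hX0 : 0 < X := by linarith
  have hlog : 0 < Real.log X := Real.log_pos hX3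
  have hbig : (K : ℝ) < δ * X / Real.log X ^ 3 := by
    rw [Real.norm_of_nonneg (by positivity), id, Real.norm_of_nonneg hX0.le] at hX2
    rw [lt_div_iff₀ (by positivity)]
    have h5 : Real.log X ^ 3 * (K + 1) ≤ δ * X := by
      calc Real.log X ^ 3 * (K + 1) ≤ (δ / (K + 1) * X) * (K + 1) := by gcongr
        _ = δ * X := by field_simp
    have h6 : 0 < Real.log X ^ 3 := by positivity
    nlinarith
  have h7 : (({c : ℕ | (c : ℝ) ≤ X ∧ P c} : Set ℕ).ncard : ℝ) ≤ K := by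
    have h8 := Set.ncard_le_ncard (s := {c : ℕ | (c : ℝ) ≤ X ∧ P c}) (t := {c : ℕ | P c})
      (fun c hc => hc.2) hfin
    exact_mod_cast h8
  linarith

/-- There is `δ > 0` such that for every integer `a ≠ 0`: for one of `b = a, 4a, 16a` there are
infinitely many squarefree `c` with at most two prime factors and `S(b,1;c) > 0`, and infinitely many
with `S(b,1;c) < 0`, in fact at least `δ X / (log X)^3` such `c ≤ X` for each of the two signs, for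
arbitrarily large `X`; and for every large `X` there is such a `b` (depending on `X`). -/
theorem result : ∃ δ : ℝ, 0 < δ ∧ ∀ a : ℤ, a ≠ 0 →
    (∃ b : ℤ, (b = a ∨ b = 4 * a ∨ b = 16 * a) ∧
      {c : ℕ | Good b c ∧ Pos b 1 c}.Infinite ∧ {c : ℕ | Good b c ∧ Neg b 1 c}.Infinite ∧
      ∃ᶠ X : ℝ in atTop, Both δ b X) ∧
    ∀ᶠ X : ℝ in atTop, ∃ b : ℤ, (b = a ∨ b = 4 * a ∨ b = 16 * a) ∧ Both δ b X := by
  obtain ⟨δ, hδ, hmain⟩ := Kl96.main
  refine ⟨δ, hδ, fun a ha => ?_⟩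
  have key : ∀ᶠ X : ℝ in atTop, ∃ b : ℤ, (b = a ∨ b = 4 * a ∨ b = 16 * a) ∧ Both δ b X := by
    filter_upwards [hmain a ha] with X hX
    obtain ⟨b, hb, h1, h2⟩ := hX
    refine ⟨b, hb, h1.trans ?_, h2.trans ?_⟩
    · have := Set.ncard_le_ncard (s := {c : ℕ | (c : ℝ) ≤ X ∧ (Kl96.Adm2 b c ∧ Kl96.PosF b c)})
        (t := {c : ℕ | (c : ℝ) ≤ X ∧ (Good b c ∧ Pos b 1 c)})
        (fun c hc => ⟨hc.1, hc.2.1, pos_of b c hc.2.2⟩) (finite_le X _)
      exact_mod_cast this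
    · have := Set.ncard_le_ncard (s := {c : ℕ | (c : ℝ) ≤ X ∧ (Kl96.Adm2 b c ∧ Kl96.NegF b c)})
        (t := {c : ℕ | (c : ℝ) ≤ X ∧ (Good b c ∧ Neg b 1 c)})
        (fun c hc => ⟨hc.1, hc.2.1, neg_of b c hc.2.2⟩) (finite_le X _)
      exact_mod_cast this
  refine ⟨?_, key⟩
  have hfreq : ∃ b : ℤ, (b = a ∨ b = 4 * a ∨ b = 16 * a) ∧ ∃ᶠ X : ℝ in atTop, Both δ b X := by
    by_contra hcon
    push Not at hcon
    obtain ⟨X, ⟨b, hb, hX⟩, h1, h2, h3⟩ := (key.and ((hcon a (Or.inl rfl)).and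
      ((hcon (4 * a) (Or.inr (Or.inl rfl))).and (hcon (16 * a) (Or.inr (Or.inr rfl)))))).exists
    rcases hb with rfl | rfl | rfl
    · exact h1 hX
    · exact h2 hX
    · exact h3 hX
  obtain ⟨b, hb, hf⟩ := hfreq
  exact ⟨b, hb, infinite_of_frequently δ hδ _ (hf.mono fun X hX => hX.1),
    infinite_of_frequently δ hδ _ (hf.mono fun X hX => hX.2), hf⟩

end Pool.Agent.Results.MP_6ea630_nt.TwoPrimeFactors
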